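import Mathlib
import Pool.Agent.N732.GV.Fin

set_option autoImplicit false

/-!
# The conjecture of Shanks fails in all sieved sequential random models of the primes

The conjecture of Shanks, `log p(g) ~ √g`, holds in the models in which `n` is chosen with (conditional)
probability `~ 1 / log n` (`MP_926cc3_nt.SequentialModels`).  Granville pointed out that a realistic
model of the primes must respect divisibility by all small primes.  We consider all sequential models
with this property, with no independence: an integer `n` of the dyadic block `[2^j, 2^(j+1))` can be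
chosen only if it has no prime factor up to `z j = j^(1 + o(1))`, `z j = o(j)` (so the sieving level is
`(log n)^(1 + o(1))`, `o(log n)`), and the conditional probability of choosing such an `n`, given the
past, is `~ ∏ p ≤ z j, (1 - 1/p)⁻¹ / log n`.  In all these models the conjecture of Shanks fails.
-/

open MeasureTheory Filter
open scoped Topology

namespace Pool.Agent.Results.MP_926cc3_nt.GrowingSieve

/-- the primes up to `z` -/
def primesUpTo (z : ℕ) : Finset ℕ := (Finset.Icc 1 z).filter Nat.Prime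

/-- A sequential random model sieved by the primes up to `z j` in the block `[2^j, 2^(j+1))`: `A n` is
the event that `n` is chosen. -/
def SievedModel {Ω : Type} [m : MeasurableSpace Ω] (μ : Measure Ω) (ℱ : Filtration ℕ m) (z : ℕ → ℕ)
    (A : ℕ → Set Ω) : Prop :=
  (∀ n, MeasurableSet[ℱ n] (A n)) ∧
  (∀ n, (∃ p ∈ primesUpTo (z (Nat.log 2 n)), p ∣ n) → A n = ∅) ∧
  ∀ᵐ ω ∂μ, ∀ ε : ℝ, 0 < ε → ∀ᶠ n : ℕ in atTop,
    (∀ p ∈ primesUpTo (z (Nat.log 2 (n + 1))), ¬ p ∣ n + 1) →
      |(μ[(A (n + 1)).indicator (fun _ => (1 : ℝ)) | ℱ n]) ω * Real.log ((n : ℝ) + 1) *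
        ∏ p ∈ primesUpTo (z (Nat.log 2 (n + 1))), (1 - 1 / (p : ℝ)) - 1| ≤ ε

/-- the members of `S` whose `g` immediate predecessors are outside `S`, after an earlier member -/
def afterRun (S : Set ℕ) (g : ℕ) : Set ℕ := {q | q ∈ S ∧ ∃ p ∈ S, p + g < q ∧ ∀ r, p < r → r < q → r ∉ S}

end Pool.Agent.Results.MP_926cc3_nt.GrowingSieve

open Pool.Agent.Results.MP_926cc3_nt.GrowingSieve Pool.Agent.N732.GV

/-- Let `z j = o(j)` and `log z j ~ log j`.  In every sequential model sieved by the primes up to `z j`,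
almost surely, with `S` the set of the chosen integers:
(1) for every `g` some member of `S` follows a run of at least `g` integers outside `S` (after an
earlier member), and if `p(g)` is the least one, then `limsup log p(g) / √g ≤ √(e^γ / 2)`;
(2) `√(e^γ / 2) < 1`, so `log p(g) / √g` does not tend to `1`;
(3) for every `λ < 2 e^(-γ)` and all large `x` there are consecutive members `p < q` of `S`, `p ≤ x`,
with `q - p > λ (log x)^2`, and `2 e^(-γ) > 1`. -/
theorem Pool.Agent.Results.MP_926cc3_nt.GrowingSieve.result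
    {Ω : Type} [mΩ : MeasurableSpace Ω] (μ : Measure Ω) [IsProbabilityMeasure μ]
    (ℱ : Filtration ℕ mΩ) (z : ℕ → ℕ) (hz0 : Tendsto (fun j : ℕ => (z j : ℝ) / j) atTop (𝓝 0))
    (hz1 : Tendsto (fun j : ℕ => Real.log (z j) / Real.log j) atTop (𝓝 1)) (A : ℕ → Set Ω)
    (hmodel : SievedModel μ ℱ z A) :
    √(Real.exp Real.eulerMascheroniConstant / 2) < 1 ∧ 1 < 2 * Real.exp (-Real.eulerMascheroniConstant) ∧
    ∀ᵐ ω ∂μ,
      (∀ g, (afterRun {n | ω ∈ A n} g).Nonempty) ∧
      (∀ ε : ℝ, 0 < ε → ∀ᶠ g : ℕ in atTop,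
        Real.log (sInf (afterRun {n | ω ∈ A n} g) : ℕ) / √(g : ℝ) ≤ √(Real.exp Real.eulerMascheroniConstant / 2) + ε) ∧
      ¬ Tendsto (fun g : ℕ => Real.log (sInf (afterRun {n | ω ∈ A n} g) : ℕ) / √(g : ℝ)) atTop (𝓝 1) ∧
      ∀ lam : ℝ, lam < 2 * Real.exp (-Real.eulerMascheroniConstant) → ∀ᶠ x : ℕ in atTop,
        ∃ p q : ℕ, ω ∈ A p ∧ ω ∈ A q ∧ p ≤ x ∧ p < q ∧ (∀ r, p < r → r < q → ω ∉ A r) ∧
          lam * Real.log x ^ 2 < (q : ℝ) - p := by
  classical
  obtain ⟨hA, hcop, hd⟩ := hmodel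
  set E := Real.exp Real.eulerMascheroniConstant with hE
  have hE0 : 0 < E := Real.exp_pos _
  have hE2 : E < 2 := by
    have h1 : Real.eulerMascheroniConstant < Real.log 2 := by
      linarith [Real.eulerMascheroniConstant_lt_two_thirds, Real.log_two_gt_d9]
    calc E < Real.exp (Real.log 2) := Real.exp_lt_exp.2 h1
      _ = 2 := Real.exp_log (by norm_num)
  have hEneg : Real.exp (-Real.eulerMascheroniConstant) = E⁻¹ := Real.exp_neg _
  set c := √(E / 2) with hc
  have hc0 : 0 < c := Real.sqrt_pos.2 (by positivity)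
  have hc2 : c ^ 2 = E / 2 := Real.sq_sqrt (by positivity)
  have hc1 : c < 1 := by
    rw [hc, Real.sqrt_lt' one_pos]
    linarith
  -- the sieving sets
  set P : ℕ → Finset ℕ := fun j => PZ (z j) with hPdef
  have hP : ∀ j, ∀ p ∈ P j, p.Prime := fun j p hp => (mem_PZ.1 hp).1
  have hW : Tendsto (fun j : ℕ => Real.log (∏ p ∈ P j, p : ℕ) / j) atTop (𝓝 0) := by
    have h1 : Tendsto (fun j : ℕ => (z j : ℝ) / j * Real.log 4) atTop (𝓝 0) := by
      have := hz0.mul_const (Real.log 4)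
      rwa [zero_mul] at this
    refine tendsto_of_tendsto_of_tendsto_of_le_of_le tendsto_const_nhds h1 (fun j => ?_) (fun j => ?_)
    · exact div_nonneg (Real.log_natCast_nonneg _) (Nat.cast_nonneg _)
    · rw [div_mul_eq_mul_div]
      apply div_le_div_of_nonneg_right _ (Nat.cast_nonneg _)
      rw [← Real.log_pow]
      apply Real.log_le_log (by exact_mod_cast prod_PZ_pos (z j))
      exact_mod_cast prod_PZ_le (z j)
  have hy : ∀ᶠ j : ℕ in atTop, ∀ p : ℕ, p.Prime → (p : ℝ) ≤ Real.log j ^ 4 → p ∈ P j := by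
    have h1 : ∀ᶠ j : ℕ in atTop, Real.log (j : ℝ) ^ (4 : ℝ) ≤ (j : ℝ) ^ (1 / 2 : ℝ) := by
      have h2 := (isLittleO_log_rpow_rpow_atTop (4 : ℝ) (show (0 : ℝ) < 1 / 2 by norm_num)).def one_pos
      filter_upwards [tendsto_natCast_atTop_atTop.eventually h2, eventually_ge_atTop 1] with j hj hj1
      have hj1' : (1 : ℝ) ≤ j := by exact_mod_cast hj1
      rw [Real.norm_of_nonneg (Real.rpow_nonneg (Real.log_nonneg hj1') _),
        Real.norm_of_nonneg (Real.rpow_nonneg (by linarith) _), one_mul] at hj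
      exact hj
    filter_upwards [h1, hz1.eventually (lt_mem_nhds (show (1 / 2 : ℝ) < 1 by norm_num)),
      Pool.Agent.R528.RM.tendsto_log.eventually_gt_atTop 0, (tendsto_nat_of_log one_pos hz1).2.eventually_ge_atTop 1,
      eventually_ge_atTop 1] with j h1 h2 h3 h4 h5 p hp hpj
    rw [hPdef, mem_PZ]
    refine ⟨hp, ?_⟩
    have hj0 : (0 : ℝ) < j := by exact_mod_cast h5
    have hz0' : (0 : ℝ) < z j := by exact_mod_cast h4
    rw [lt_div_iff₀ h3] at h2
    have h6 : (j : ℝ) ^ (1 / 2 : ℝ) ≤ z j := by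
      rw [← Real.log_le_log_iff (Real.rpow_pos_of_pos hj0 _) hz0', Real.log_rpow hj0]
      exact h2.le
    have h7 : Real.log (j : ℝ) ^ (4 : ℝ) = Real.log j ^ 4 := by
      rw [← Real.rpow_natCast]
      norm_num
    rw [h7] at h1
    have h8 : (p : ℝ) ≤ z j := by linarith
    exact_mod_cast h8
  have hdens := Pool.Agent.N732.GS.dens_growing (μ := μ) (ℱ := ℱ) (A := A) P hP hW hcop (fun ε _ => ε) hd
  have htup := Pool.Agent.N732.GS.tuples_asymp (μ := μ) hA P hP hW hy hdens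
  have hzero : ∀ᵐ ω ∂μ, ∀ n, ¬ (∀ p ∈ PZ (z (Nat.log 2 (n + 1))), ¬ p ∣ n + 1) → Pool.Agent.R528.RM.dens μ ℱ A n ω = 0 := by
    rw [ae_all_iff]
    intro n
    by_cases h : ∀ p ∈ PZ (z (Nat.log 2 (n + 1))), ¬ p ∣ n + 1
    · exact Eventually.of_forall fun ω h2 => absurd h h2
    · have h1 : Pool.Agent.R528.RM.dens μ ℱ A n =ᵐ[μ] 0 := by
        unfold Pool.Agent.R528.RM.dens
        rw [hcop (n + 1) (by
          push Not at h
          exact h), Set.indicator_empty]
        rw [show (fun _ : Ω => (0 : ℝ)) = 0 from rfl, condExp_zero]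
      filter_upwards [h1] with ω hω _
      exact hω
  have hup : ∀ᵐ ω ∂μ, ∀ ε : ℝ, 0 < ε → ∀ᶠ n : ℕ in atTop, (∀ p ∈ PZ (z (Nat.log 2 (n + 1))), ¬ p ∣ n + 1) →
      Pool.Agent.R528.RM.dens μ ℱ A n ω * Real.log ((n : ℝ) + 1) ≤ (1 + ε) * MM (z (Nat.log 2 (n + 1))) := by
    filter_upwards [hd] with ω hω ε hε
    filter_upwards [hω ε hε] with n hn h
    have h1 := (abs_le.1 (hn h)).2
    have h2 : ∏ p ∈ primesUpTo (z (Nat.log 2 (n + 1))), (1 - 1 / (p : ℝ)) = (MM (z (Nat.log 2 (n + 1))))⁻¹ := by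
      unfold MM
      rw [← Finset.prod_inv_distrib]
      refine Finset.prod_congr rfl fun p _ => ?_
      rw [inv_inv, one_div]
    rw [h2] at h1
    have hM := MM_pos (z (Nat.log 2 (n + 1)))
    have h3 : (μ[(A (n + 1)).indicator (fun _ => (1 : ℝ)) | ℱ n]) ω * Real.log ((n : ℝ) + 1) *
        (MM (z (Nat.log 2 (n + 1))))⁻¹ ≤ 1 + ε := by linarith
    rw [← div_eq_mul_inv, div_le_iff₀ hM] at h3
    exact h3
  -- all windows
  have hwin : ∀ᵐ ω ∂μ, ∀ m : ℕ, ∀ᶠ j : ℕ in atTop, ∃ t, 2 ^ j ≤ t ∧ t + gg (1 / (c + 1 / ((m : ℝ) + 1)) ^ 2) j < 2 ^ (j + 1) ∧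
      ω ∈ Emp A t (gg (1 / (c + 1 / ((m : ℝ) + 1)) ^ 2) j) := by
    rw [ae_all_iff]
    intro m
    have hm : 0 < 1 / ((m : ℝ) + 1) := by positivity
    refine windows (μ := μ) hA z hz0 hz1 hzero hup (by positivity) ?_
    rw [← hE, div_mul_eq_mul_div, one_mul, div_lt_iff₀ (by positivity)]
    have : c ^ 2 < (c + 1 / ((m : ℝ) + 1)) ^ 2 := by nlinarith
    nlinarith
  refine ⟨hc1, ?_, ?_⟩
  · rw [hEneg, ← div_eq_mul_inv, lt_div_iff₀ hE0]
    linarith
  filter_upwards [htup, hwin] with ω h1 h2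
  set S : Set ℕ := {n | ω ∈ A n} with hS
  have hdy := dyadic_mem (S := S) (by
    intro ε hε
    filter_upwards [h1 1 0 ε hε] with x hx
    have h3 := hx {0} (by simp) (by simp) (by rw [sing_zero]; norm_num)
    rw [sing_zero, Pool.Agent.N732.GS.TN_eq, mul_one] at h3
    exact h3)
  have hgap : ∀ m : ℕ, ∀ᶠ j : ℕ in atTop, ∃ p ∈ S, ∃ q ∈ S, p < 2 ^ (j + 1) ∧ q ≤ 2 ^ (j + 2) ∧
      p + gg (1 / (c + 1 / ((m : ℝ) + 1)) ^ 2) j < q ∧ ∀ r, p < r → r < q → r ∉ S := by
    intro m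
    refine gap_of_window ?_ hdy
    filter_upwards [h2 m] with j hj
    exact hj
  have hlim : ∀ ε : ℝ, 0 < ε → ∀ᶠ g : ℕ in atTop,
      Real.log (sInf (Pool.Agent.N732.GV.afterRun S g) : ℕ) / √(g : ℝ) ≤ c + ε := by
    intro ε hε
    obtain ⟨m, hm⟩ := exists_nat_one_div_lt hε
    have hm0 : 0 < 1 / ((m : ℝ) + 1) := by positivity
    refine (first_occ (by positivity) (hgap m) (c := c + ε) ?_).2
    rw [Real.sqrt_div' _ (by positivity), Real.sqrt_one, Real.sqrt_sq (by positivity), one_div_one_div]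
    linarith
  refine ⟨?_, hlim, ?_, ?_⟩
  · have hm0 : (0 : ℝ) < 1 / (((0 : ℕ) : ℝ) + 1) := by positivity
    exact (first_occ (by positivity) (hgap 0) (lt_add_one _)).1
  · intro hT
    have h3 := hlim ((1 - c) / 2) (by linarith)
    have h4 := hT.eventually (lt_mem_nhds (show c + (1 - c) / 2 < 1 by linarith))
    obtain ⟨g, hg1, hg2⟩ := (h3.and h4).exists
    exact absurd hg1 (not_le.2 hg2)
  · intro lam hlam
    rcases le_or_gt lam 0 with h0 | h0
    · -- any gap will do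
      have h5 := record (lam := 1 / (c + 1 / (((0 : ℕ) : ℝ) + 1)) ^ 2) (by positivity) (hgap 0)
      filter_upwards [h5] with x hx
      obtain ⟨p, hp, q, hq, g1, g2, g3, g4⟩ := hx
      refine ⟨p, q, hp, hq, g1, g2, g3, ?_⟩
      have h6 : lam * Real.log x ^ 2 ≤ 0 := mul_nonpos_of_nonpos_of_nonneg h0 (by positivity)
      have h7 : (p : ℝ) < q := by exact_mod_cast g2
      linarith
    · -- choose m with lam < 1 / (c + 1/(m+1))^2
      have h3 : c < 1 / √lam := by
        rw [lt_div_iff₀ (Real.sqrt_pos.2 h0)]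
        have h4 : (c * √lam) ^ 2 < 1 ^ 2 := by
          rw [mul_pow, Real.sq_sqrt h0.le, hc2]
          rw [hEneg, ← div_eq_mul_inv, lt_div_iff₀ hE0] at hlam
          nlinarith
        exact lt_of_pow_lt_pow_left₀ 2 (by norm_num) h4
      obtain ⟨m, hm⟩ := exists_nat_one_div_lt (show 0 < 1 / √lam - c by linarith)
      have hm0 : 0 < 1 / ((m : ℝ) + 1) := by positivity
      have h5 := record (lam := 1 / (c + 1 / ((m : ℝ) + 1)) ^ 2) (by positivity) (hgap m)
      have h6 : lam ≤ 1 / (c + 1 / ((m : ℝ) + 1)) ^ 2 := by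
        rw [le_div_iff₀ (by positivity)]
        have h7 : c + 1 / ((m : ℝ) + 1) ≤ 1 / √lam := by linarith
        have h8 : (c + 1 / ((m : ℝ) + 1)) ^ 2 ≤ (1 / √lam) ^ 2 := pow_le_pow_left₀ (by positivity) h7 2
        have h9 : (1 / √lam) ^ 2 = 1 / lam := by rw [div_pow, one_pow, Real.sq_sqrt h0.le]
        rw [h9] at h8
        calc lam * (c + 1 / ((m : ℝ) + 1)) ^ 2 ≤ lam * (1 / lam) := mul_le_mul_of_nonneg_left h8 h0.le
          _ = 1 := by field_simp
      filter_upwards [h5] with x hx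
      obtain ⟨p, hp, q, hq, g1, g2, g3, g4⟩ := hx
      refine ⟨p, q, hp, hq, g1, g2, g3, ?_⟩
      have h7 : lam * Real.log x ^ 2 ≤ 1 / (c + 1 / ((m : ℝ) + 1)) ^ 2 * Real.log x ^ 2 :=
        mul_le_mul_of_nonneg_right h6 (by positivity)
      linarith
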