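import Pool.Agent.N542.PR.Main
import Pool.Agent.N542.PB.GenPoly

set_option autoImplicit false

/-!
# All the values `f(n)`, `|n - p| ≤ p ^ δ`, of a smooth function in large gaps between primes

Let `c > 0` be a real number that is not an integer. We show that there are runs of POWER length
`|n - N| ≤ N ^ δ` such that every one of the numbers `n ^ c` of the run is in a gap between primes of
Rankin's length: no prime is within `κ log N log₂ N log₄ N / (log₃ N)²` of any of them. The centre `N` can be
taken to be a prime number in a given residue class, the function `t ^ c` can be replaced by any smoothly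
varying function, with a real polynomial of degree `< c` added, and several functions can be treated
at once.

Precisely, let the `f_j` (`1 ≤ j ≤ r`) be smoothly varying (Bingham, Goldie, Teugels) with real indices
`c_j ∉ {0, 1, 2, …}` (for instance `t ^ (c_j)` plus a combination of lower real powers), let `u_j` be real
numbers such that the `v_j = c_j + u_j` are positive, no `v_j` is an integer, and `v_i - v_j` is not an
integer for `i ≠ j`. Let `b` be prime to `d` and `0 < ε ≤ 1 / 2`. There are `κ, δ > 0` such that for all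
large `Z`, for ALL real `α_j` with `Z ^ (u_j - δ) ≤ |α_j| ≤ Z ^ (u_j + δ)` and ALL real polynomials `P_j` of
degree at most `v_j`, for which the numbers `α_j f_j(n) + P_j(n)` are at least `Z ^ ε` for the
integers `n ∈ [Z / 2, 2 Z]`, at least `Z ^ (1 - ε)` primes `p ≡ b (mod d)` of `(Z, (1 + ε) Z]` are such that
for EVERY integer `n` with `|n - p| ≤ Z ^ δ` and every `j` no prime lies within
`κ log Z log₂ Z log₄ Z / (log₃ Z)²` of `α_j f_j(n) + P_j(n)`.

Proof (`Pool.Agent.N542.PR`). Rankin's covering, with primes up to a small multiple of `log Z`, gives a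
modulus `M ≤ Z ^ θ` and a residue `a` such that every integer congruent to `a + k (mod M)`, `|k| ≤ κ R(Z)`, has
a prime factor `≤ log Z`. Let `N_j` be the integral part of `v_j`. By Newton's formula the value of
`G_j = α_j f_j + P_j` at `p + s`, `|s| ≤ Z ^ δ`, is an integer combination, with small coefficients, of the
differences `Δ^m G_j(p)`, `0 ≤ m ≤ N_j`, up to `o(1)`. The vectors of all these differences divided by `M` are
jointly equidistributed modulo one with a power saving, for the primes `p` of the residue class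
(exponential sums over primes of `MP_c853c5_nt.NeighbouringValues`: Vaughan's identity); so many `p` have
`G_j(p)` very close to `a + 1 / 2` modulo `M` and `Δ^m G_j(p)`, `1 ≤ m ≤ N_j`, very close to multiples of
`M`; then all the values of the run are close to `a + 1 / 2` modulo `M`.
-/

namespace Pool.Agent.Results.MP_926cc3_nt.LongRuns

open Finset Filter Topology

/-- Rankin's function `log x log₂ x log₄ x / (log₃ x)²` -/
noncomputable def R (x : ℝ) : ℝ :=
  Real.log x * Real.log (Real.log x) * Real.log (Real.log (Real.log (Real.log x))) /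
    (Real.log (Real.log (Real.log x))) ^ 2

/-- `f` is smoothly varying with index `c`: it is positive and has derivatives of every order near
infinity, and `t ^ j f⁽ʲ⁾(t) / f(t)` tends to `c (c - 1) ⋯ (c - j + 1)` for every `j`. -/
def SmoothlyVarying (c : ℝ) (f : ℝ → ℝ) : Prop :=
  (∀ᶠ t in atTop, 0 < f t) ∧
  (∀ j : ℕ, ∀ᶠ t in atTop, DifferentiableAt ℝ (iteratedDeriv j f) t) ∧
  ∀ j : ℕ, Tendsto (fun t => t ^ j * iteratedDeriv j f t / f t) atTop
    (𝓝 (∏ i ∈ range j, (c - i)))

/-- The main theorem. -/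
theorem result (r : ℕ) (hr : 1 ≤ r) (c u : Fin r → ℝ) (f : Fin r → ℝ → ℝ)
    (hcn : ∀ j, ∀ n : ℕ, c j ≠ n) (hf : ∀ j, SmoothlyVarying (c j) (f j))
    (hv : ∀ j, 0 < c j + u j) (hvn : ∀ j, ∀ n : ℕ, c j + u j ≠ n)
    (hinc : ∀ i j, i ≠ j → ∀ n : ℤ, (c i + u i) - (c j + u j) ≠ n)
    (d b : ℕ) (hd : 0 < d) (hb : b.Coprime d) (ε : ℝ) (hε : 0 < ε) (hε1 : ε ≤ 1 / 2) :
    ∃ κ δ : ℝ, 0 < κ ∧ 0 < δ ∧ ∀ᶠ Z : ℝ in atTop, ∀ (α : Fin r → ℝ)
      (P : Fin r → Polynomial ℝ),
      (∀ j, Z ^ (u j - δ) ≤ |α j| ∧ |α j| ≤ Z ^ (u j + δ)) →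
      (∀ j, ((P j).natDegree : ℝ) ≤ c j + u j) →
      (∀ j, ∀ n : ℤ, Z / 2 ≤ n → (n : ℝ) ≤ 2 * Z →
        Z ^ ε ≤ α j * f j n + (P j).eval (n : ℝ)) →
      ∃ G : Finset ℕ, Z ^ (1 - ε) ≤ (G.card : ℝ) ∧ ∀ p ∈ G, p.Prime ∧ p ≡ b [MOD d] ∧
        Z < p ∧ (p : ℝ) ≤ (1 + ε) * Z ∧
        ∀ j, ∀ n : ℤ, |(n : ℝ) - p| ≤ Z ^ δ → ∀ q : ℕ, q.Prime →
          κ * R Z < |(q : ℝ) - (α j * f j n + (P j).eval (n : ℝ))| := by
  have hSV : ∀ j, Pool.Agent.N542.PP.SV (c j) (fun k => iteratedDeriv k (f j)) := by
    intro j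
    refine ⟨?_, ?_, ?_⟩
    · simpa only [iteratedDeriv_zero] using (hf j).1
    · intro k
      filter_upwards [(hf j).2.1 k] with t ht
      rw [iteratedDeriv_succ]
      exact ht.hasDerivAt
    · intro k
      have h1 := (hf j).2.2 k
      rw [Pool.Agent.N542.PP.fall]
      simpa only [iteratedDeriv_zero] using h1
  have h := Pool.Agent.N542.PR.runs hr c u (fun j k => iteratedDeriv k (f j)) hSV hcn hinc hv hvn
    d b hd hb ε hε hε1
  simp only [iteratedDeriv_zero] at h
  exact h

/-- `t ^ c` plus a combination of lower real powers is smoothly varying with index `c`. -/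
theorem smoothlyVarying_genPoly (c : ℝ) (n : ℕ) (a b : Fin n → ℝ) (hb : ∀ i, b i < c) :
    SmoothlyVarying c (fun t => t ^ c + ∑ i, a i * t ^ b i) :=
  Pool.Agent.N542.PB.genPoly_sv c n a b hb

end Pool.Agent.Results.MP_926cc3_nt.LongRuns
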